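import Mathlib

/-!
Order automorphisms of a chain form a lattice-ordered group, and a group whose order is an
intersection of right orders embeds in a product of such groups.
-/

set_option autoImplicit false

namespace Pool.Agent.Lib.MP_98d06d_al

universe u v

/-- Order automorphisms of a chain. -/
def Aut (X : Type u) [LinearOrder X] : Type u := X ≃o X

namespace Aut

variable {X : Type u} [LinearOrder X]

instance : Group (Aut X) := inferInstanceAs (Group (X ≃o X))

/-- the underlying order isomorphism -/
def iso (f : Aut X) : X ≃o X := f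

theorem iso_mul (f g : Aut X) (x : X) : (f * g).iso x = f.iso (g.iso x) := rfl

theorem ext' {f g : Aut X} (h : ∀ x, f.iso x = g.iso x) : f = g :=
  OrderIso.ext (funext h)

theorem strictMono_max (f g : Aut X) : StrictMono fun x => max (f.iso x) (g.iso x) := by
  intro x y hxy
  exact max_lt_max (f.iso.strictMono hxy) (g.iso.strictMono hxy)

theorem strictMono_min (f g : Aut X) : StrictMono fun x => min (f.iso x) (g.iso x) := by
  intro x y hxy
  exact min_lt_min (f.iso.strictMono hxy) (g.iso.strictMono hxy)

theorem surj_max (f g : Aut X) : Function.Surjective fun x => max (f.iso x) (g.iso x) := by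
  intro y
  rcases le_total (f.iso.symm y) (g.iso.symm y) with h | h
  · refine ⟨f.iso.symm y, ?_⟩
    have : g.iso (f.iso.symm y) ≤ y := by
      simpa using g.iso.monotone h
    simp [this]
  · refine ⟨g.iso.symm y, ?_⟩
    have : f.iso (g.iso.symm y) ≤ y := by
      simpa using f.iso.monotone h
    simp [this]

theorem surj_min (f g : Aut X) : Function.Surjective fun x => min (f.iso x) (g.iso x) := by
  intro y
  rcases le_total (f.iso.symm y) (g.iso.symm y) with h | h
  · refine ⟨g.iso.symm y, ?_⟩
    have : y ≤ f.iso (g.iso.symm y) := by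
      simpa using f.iso.monotone h
    simp [this]
  · refine ⟨f.iso.symm y, ?_⟩
    have : y ≤ g.iso (f.iso.symm y) := by
      simpa using g.iso.monotone h
    simp [this]

/-- pointwise maximum -/
noncomputable def supA (f g : Aut X) : Aut X :=
  (strictMono_max f g).orderIsoOfSurjective _ (surj_max f g)

/-- pointwise minimum -/
noncomputable def infA (f g : Aut X) : Aut X :=
  (strictMono_min f g).orderIsoOfSurjective _ (surj_min f g)

theorem supA_apply (f g : Aut X) (x : X) : (supA f g).iso x = max (f.iso x) (g.iso x) := rfl

theorem infA_apply (f g : Aut X) (x : X) : (infA f g).iso x = min (f.iso x) (g.iso x) := rfl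

noncomputable instance : Lattice (Aut X) where
  le f g := ∀ x, f.iso x ≤ g.iso x
  le_refl _ _ := le_rfl
  le_trans _ _ _ h k x := (h x).trans (k x)
  le_antisymm _ _ h k := ext' fun x => le_antisymm (h x) (k x)
  sup := supA
  inf := infA
  le_sup_left f g x := by rw [supA_apply]; exact le_max_left _ _
  le_sup_right f g x := by rw [supA_apply]; exact le_max_right _ _
  sup_le f g h k l x := by rw [supA_apply]; exact max_le (k x) (l x)
  inf_le_left f g x := by rw [infA_apply]; exact min_le_left _ _
  inf_le_right f g x := by rw [infA_apply]; exact min_le_right _ _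
  le_inf f g h k l x := by rw [infA_apply]; exact le_min (k x) (l x)

theorem le_def (f g : Aut X) : f ≤ g ↔ ∀ x, f.iso x ≤ g.iso x := Iff.rfl

instance : MulLeftMono (Aut X) :=
  ⟨fun h f g k => (le_def _ _).2 fun x => by
    rw [iso_mul, iso_mul]; exact h.iso.monotone ((le_def _ _).1 k x)⟩

instance : MulRightMono (Aut X) :=
  ⟨fun h f g k => (le_def _ _).2 fun x => by
    change (f * h).iso x ≤ (g * h).iso x
    rw [iso_mul, iso_mul]; exact (le_def _ _).1 k _⟩

end Aut

/-- right orders on a group -/
structure ROrd (G : Type u) [Group G] where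
  r : G → G → Prop
  lin : IsLinearOrder G r
  right : ∀ a b c, r a b → r (a * c) (b * c)

/-- the group with the left order attached to a right order -/
def Ch {G : Type u} [Group G] (_o : ROrd G) : Type u := G

namespace Ch

variable {G : Type u} [Group G] (o : ROrd G)

/-- identity map -/
def of (g : G) : Ch o := g

/-- identity map -/
def val (x : Ch o) : G := x

open Classical in
noncomputable instance : LinearOrder (Ch o) where
  le x y := o.r (val o y)⁻¹ (val o x)⁻¹
  le_refl x := by
    have := o.lin
    exact refl_of o.r _
  le_trans x y z h k := by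
    have := o.lin
    exact trans_of o.r k h
  le_antisymm x y h k := by
    have := o.lin
    have : (val o x)⁻¹ = (val o y)⁻¹ := antisymm_of o.r k h
    exact inv_injective (G := G) this
  le_total x y := by
    have := o.lin
    exact total_of o.r _ _
  toDecidableLE := fun _ _ => Classical.propDecidable _

theorem le_def (x y : Ch o) : x ≤ y ↔ o.r (val o y)⁻¹ (val o x)⁻¹ := Iff.rfl

/-- left multiplication as an order automorphism -/
def lmul (g : G) : Aut (Ch o) :=
  show Ch o ≃o Ch o from
  { toFun := fun x => of o (g * val o x)
    invFun := fun x => of o (g⁻¹ * val o x)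
    left_inv := fun x => inv_mul_cancel_left g (val o x)
    right_inv := fun x => mul_inv_cancel_left g (val o x)
    map_rel_iff' := by
      intro x y
      simp only [le_def]
      change o.r (g * val o y)⁻¹ (g * val o x)⁻¹ ↔ _
      constructor
      · intro h
        simpa using o.right _ _ g h
      · intro h
        simpa using o.right _ _ g⁻¹ h }

theorem lmul_apply (g : G) (x : Ch o) : (lmul o g).iso x = of o (g * val o x) := rfl

/-- left regular representation -/
def rep : G →* Aut (Ch o) where
  toFun := lmul o
  map_one' := Aut.ext' fun x => by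
    rw [lmul_apply, one_mul]; rfl
  map_mul' a b := Aut.ext' fun x => by
    rw [Aut.iso_mul, lmul_apply, lmul_apply, lmul_apply, mul_assoc]; rfl

theorem rep_le (a b : G) : rep o a ≤ rep o b ↔ ∀ x : G, o.r (b * x)⁻¹ (a * x)⁻¹ := Iff.rfl

end Ch

/-- A group whose order is an intersection of right orders order-embeds in an l-group. -/
theorem exists_embedding (G : Type u) [Group G] [PartialOrder G] [MulLeftMono G] [MulRightMono G]
    (ι : Type v) (r : ι → G → G → Prop) (hlin : ∀ i, IsLinearOrder G (r i))
    (hright : ∀ i a b c, r i a b → r i (a * c) (b * c))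
    (hint : ∀ a b : G, a ≤ b ↔ ∀ i, r i a b) :
    ∃ (K : Type u) (_ : Group K) (_ : Lattice K) (_ : MulLeftMono K) (_ : MulRightMono K)
      (ψ : G →* K), ∀ a b, a ≤ b ↔ ψ a ≤ ψ b := by
  let T : Type u := {o : ROrd G // ∀ a b : G, a ≤ b → o.r a b}
  refine ⟨∀ o : T, Aut (Ch o.1), inferInstance, inferInstance,
    ⟨fun h f g k o => mul_le_mul_right (k o) (h o)⟩,
    ⟨fun h f g k o => mul_le_mul_left (k o) (h o)⟩,
    MonoidHom.pi fun o => Ch.rep o.1, fun a b => ⟨fun h o => ?_, fun h => ?_⟩⟩
  · refine (Ch.rep_le o.1 a b).2 fun x => o.2 _ _ ?_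
    exact inv_le_inv_iff.2 (mul_le_mul_left h x)
  · have : b⁻¹ ≤ a⁻¹ := by
      refine (hint _ _).2 fun i => ?_
      have := (Ch.rep_le _ a b).1
        (h ⟨⟨r i, hlin i, hright i⟩, fun a b k => (hint a b).1 k i⟩) 1
      simpa using this
    exact inv_le_inv_iff.1 this

end Pool.Agent.Lib.MP_98d06d_al
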