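import Mathlib

/-!
Comeagre sets of sequences, through strategies: countable intersections, the localisation
property, and the Baire property.
-/

set_option autoImplicit false

namespace Pool.Agent.Lib.MP_98d06d_al

universe u

variable {D : Type u}

/-- the list `s` is an initial segment of the sequence `x` -/
def Pre (x : ℕ → D) (s : List D) : Prop := ∀ (i : ℕ) (h : i < s.length), s[i] = x i

theorem Pre.of_prefix {x : ℕ → D} {s t : List D} (h : Pre x t) (hs : s <+: t) : Pre x s :=
  fun i k => (hs.getElem k).trans (h i _)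

theorem Pre.take_eq {x : ℕ → D} {s t : List D} (ht : Pre x t) (hs : Pre x s)
    (h : s.length ≤ t.length) : t.take s.length = s :=
  List.ext_getElem (by simp [h]) fun i _ k => by rw [List.getElem_take, ht, hs i k]

/-- the initial segment of length `k` -/
def pre (x : ℕ → D) (k : ℕ) : List D := (List.range k).map x

theorem pre_length (x : ℕ → D) (k : ℕ) : (pre x k).length = k := by simp [pre]

theorem pre_iff {x y : ℕ → D} {k : ℕ} : Pre y (pre x k) ↔ ∀ i < k, y i = x i :=
  ⟨fun h i hi => by simpa [pre] using (h i (by rwa [pre_length])).symm,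
    fun h i hi => by simpa [pre] using (h i (by rwa [pre_length] at hi)).symm⟩

/-- the sequence follows the strategy infinitely often -/
def Gen (σ : List D → List D) (x : ℕ → D) : Prop := ∀ m, ∃ s, m ≤ s.length ∧ Pre x (s ++ σ s)

/-- comeagre sets -/
def Big (S : Set (ℕ → D)) : Prop := ∃ σ, ∀ x, Gen σ x → x ∈ S

theorem Big.mono {S T : Set (ℕ → D)} (h : Big S) (k : ∀ x ∈ S, x ∈ T) : Big T := by
  obtain ⟨σ, h⟩ := h
  exact ⟨σ, fun x hx => k x (h x hx)⟩

theorem big_of_forall {S : Set (ℕ → D)} (h : ∀ x, x ∈ S) : Big S := ⟨id, fun x _ => h x⟩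

theorem exists_fusion (F : ℕ → List D → List D → List D) :
    ∃ σ, ∀ x, Gen σ x → ∀ j s, Pre x s → Gen (F j s) x := by
  let ch : List D → ℕ → List D := fun u =>
    Nat.rec u fun c v => v ++ F c.unpair.1 (u.take c.unpair.2) v
  have hc : ∀ u a b, a ≤ b → ch u a <+: ch u b := by
    intro u a b h
    induction h with
    | refl => exact List.prefix_rfl
    | step _ ih => exact ih.trans (List.prefix_append _ _)
  refine ⟨fun u => (ch u u.length).drop u.length, fun x hx j s hs m => ?_⟩
  obtain ⟨u, h1, h2⟩ := hx (max m (max (j.pair s.length + 1) s.length))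
  simp only [max_le_iff] at h1
  have h0 : u <+: ch u u.length := hc u 0 _ (Nat.zero_le _)
  rw [List.prefix_iff_eq_append.1 h0] at h2
  refine ⟨ch u (j.pair s.length), h1.1.trans (hc u 0 _ (Nat.zero_le _)).length_le, ?_⟩
  have := h2.of_prefix (hc u _ _ h1.2.1)
  simp only [ch, Nat.unpair_pair, (h2.of_prefix h0).take_eq hs h1.2.2] at this
  exact this

theorem big_iInter {ι : Type} [Countable ι] {S : ι → Set (ℕ → D)} (h : ∀ i, Big (S i)) :
    Big {x | ∀ i, x ∈ S i} := by
  rcases isEmpty_or_nonempty ι with _ | _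
  · exact big_of_forall fun x i => isEmptyElim i
  obtain ⟨e, he⟩ := exists_surjective_nat ι
  choose σ h using h
  obtain ⟨τ, k⟩ := exists_fusion fun j _ => σ (e j)
  refine ⟨τ, fun x hx i => ?_⟩
  obtain ⟨j, rfl⟩ := he i
  exact h _ x (k x hx j [] fun i k => absurd k (Nat.not_lt_zero i))

theorem Big.inter {S T : Set (ℕ → D)} (h : Big S) (k : Big T) : Big {x | x ∈ S ∧ x ∈ T} :=
  (big_iInter (S := fun b : Bool => cond b S T) fun b => by cases b <;> assumption).mono
    fun _ hx => ⟨hx true, hx false⟩

theorem big_local [Nonempty D] {S : Set (ℕ → D)} (h : ∀ (x : ℕ → D) (k : ℕ), ∃ (y : ℕ → D) (l : ℕ),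
    k ≤ l ∧ (∀ i < k, y i = x i) ∧ Big {z | (∀ i < l, z i = y i) → z ∈ S}) : Big S := by
  have d : D := Classical.arbitrary D
  choose y l h1 h2 σ h3 using fun s : List D => h (fun i => s.getD i d) s.length
  have hp : ∀ s, s <+: pre (y s) (l s) := fun s => by
    have : Pre (y s) s := fun i k => by rw [h2 s i k, List.getD_eq_getElem _ _ k]
    have e : Pre (y s) (pre (y s) (l s)) := pre_iff.2 fun _ _ => rfl
    exact List.prefix_iff_eq_take.2 (e.take_eq this (by rw [pre_length]; exact h1 s)).symm
  obtain ⟨τ, k⟩ := exists_fusion fun j s =>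
    if j = 0 then fun u => (pre (y u) (l u)).drop u.length else σ s
  refine ⟨τ, fun x hx => ?_⟩
  obtain ⟨s, -, hs⟩ := k x hx 0 [] (fun i k => absurd k (Nat.not_lt_zero i)) 0
  simp only [if_true] at hs
  rw [List.prefix_iff_eq_append.1 (hp s)] at hs
  exact h3 s x (by simpa using k x hx 1 s (hs.of_prefix (hp s))) (pre_iff.1 hs)

theorem Big.exists_mem {S : Set (ℕ → D)} (h : Big S) (x : ℕ → D) (k : ℕ) :
    ∃ z ∈ S, ∀ i < k, z i = x i := by
  obtain ⟨σ, h⟩ := h
  let s : ℕ → List D := Nat.rec (pre x k) fun _ v => v ++ σ v ++ [x 0]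
  have hs : ∀ a b, a ≤ b → s a <+: s b := by
    intro a b h
    induction h with
    | refl => exact List.prefix_rfl
    | step _ ih => exact ih.trans ((List.prefix_append _ _).trans (List.prefix_append _ _))
  have hl : ∀ a, a ≤ (s a).length := by
    intro a
    induction a with
    | zero => exact Nat.zero_le _
    | succ a ih =>
      change _ ≤ (s a ++ σ (s a) ++ [x 0]).length
      simp only [List.length_append, List.length_singleton]
      omega
  have hz : ∀ a, Pre (fun i => (s (i + 1))[i]'(hl (i + 1))) (s a) := fun a i hi => by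
    rcases le_total a (i + 1) with e | e
    · exact (hs _ _ e).getElem hi
    · exact ((hs _ _ e).getElem _).symm
  exact ⟨_, h _ fun m => ⟨s m, hl m, (hz (m + 1)).of_prefix (List.prefix_append _ _)⟩,
    pre_iff.1 (hz 0)⟩

end Pool.Agent.Lib.MP_98d06d_al
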