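import Pool.Agent.Lib.MP_98d06d_al.Aut

/-!
Filling the jumps of a chain with rational intervals.
-/

set_option autoImplicit false

namespace Pool.Agent.Lib.MP_98d06d_al

universe u

/-- The chain `X` with a copy of the rational interval `(0, 1)` in every jump. -/
def Fill (X : Type u) [LinearOrder X] : Type u :=
  {z : X × ℚ // 0 ≤ z.2 ∧ z.2 < 1 ∧ (z.2 = 0 ∨ ∃ b, z.1 ⋖ b)}

namespace Fill

variable {X : Type u} [LinearOrder X]

noncomputable instance : LinearOrder (Fill X) :=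
  LinearOrder.lift' (fun z => toLex z.1) fun _ _ h => Subtype.ext (toLex.injective h)

instance [Countable X] : Countable (Fill X) := Subtype.countable

theorem lt_iff {z w : Fill X} : z < w ↔ z.1.1 < w.1.1 ∨ z.1.1 = w.1.1 ∧ z.1.2 < w.1.2 :=
  Prod.Lex.toLex_lt_toLex

theorem le_iff {z w : Fill X} : z ≤ w ↔ z.1.1 < w.1.1 ∨ z.1.1 = w.1.1 ∧ z.1.2 ≤ w.1.2 :=
  Prod.Lex.toLex_le_toLex

/-- the old points -/
def pt (a : X) : Fill X := ⟨(a, 0), le_rfl, one_pos, Or.inl rfl⟩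

instance : DenselyOrdered (Fill X) := ⟨fun z w h => by
  obtain ⟨z0, z1, z2⟩ := z.2
  obtain ⟨w0, w1, w2⟩ := w.2
  rcases lt_iff.1 h with h | ⟨h, k⟩
  · by_cases e : ∃ b, z.1.1 ⋖ b
    · exact ⟨⟨(z.1.1, (z.1.2 + 1) / 2), by linarith, by linarith, Or.inr e⟩,
        lt_iff.2 (Or.inr ⟨rfl, by simp only; linarith⟩), lt_iff.2 (Or.inl h)⟩
    · obtain ⟨c, h1, h2⟩ := (not_covBy_iff h).1 fun k => e ⟨_, k⟩
      exact ⟨pt c, lt_iff.2 (Or.inl h1), lt_iff.2 (Or.inl h2)⟩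
  · exact ⟨⟨(w.1.1, (z.1.2 + w.1.2) / 2), by linarith, by linarith,
      Or.inr (w2.resolve_left (by linarith))⟩, lt_iff.2 (Or.inr ⟨h, by simp only; linarith⟩),
      lt_iff.2 (Or.inr ⟨rfl, by simp only; linarith⟩)⟩⟩

/-- the action on points -/
def mv (e : Aut X) (z : Fill X) : Fill X :=
  ⟨(e.iso z.1.1, z.1.2), z.2.1, z.2.2.1, z.2.2.2.imp id fun ⟨b, hb⟩ =>
    ⟨e.iso b, (apply_covBy_apply_iff e.iso).2 hb⟩⟩

theorem mv_mul (e f : Aut X) (z : Fill X) : mv (e * f) z = mv e (mv f z) := rfl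

theorem mv_one (z : Fill X) : mv 1 z = z := rfl

theorem mv_le {e f : Aut X} {z : Fill X} (h : e.iso z.1.1 ≤ f.iso z.1.1) : mv e z ≤ mv f z :=
  le_iff.2 (h.lt_or_eq.imp id fun k => ⟨k, le_rfl⟩)

/-- the extension of automorphisms -/
def ext : Aut X →* Aut (Fill X) where
  toFun e := show Fill X ≃o Fill X from
    { toFun := mv e
      invFun := mv e⁻¹
      left_inv := fun z => by rw [← mv_mul, inv_mul_cancel, mv_one]
      right_inv := fun z => by rw [← mv_mul, mul_inv_cancel, mv_one]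
      map_rel_iff' := by
        intro z w
        change mv e z ≤ mv e w ↔ _
        rw [le_iff, le_iff]
        exact or_congr e.iso.lt_iff_lt (and_congr e.iso.injective.eq_iff Iff.rfl) }
  map_one' := Aut.ext' mv_one
  map_mul' e f := Aut.ext' (mv_mul e f)

theorem ext_apply (e : Aut X) (z : Fill X) : (ext e).iso z = mv e z := rfl

theorem exists_gap {z w : Fill X} (h : z < w) :
    ∃ b, z.1.1 < b ∧ ∀ e : Aut X, e.iso z.1.1 < b → mv e z < w := by
  by_cases k : ∃ b, z.1.1 ⋖ b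
  · obtain ⟨b, hb⟩ := k
    exact ⟨b, hb.lt, fun e he => (mv_le (f := 1) (hb.le_of_lt he)).trans_lt h⟩
  · rcases lt_iff.1 h with h | ⟨h, h'⟩
    · exact ⟨_, h, fun e he => lt_iff.2 (Or.inl he)⟩
    · have := w.2.2.2.resolve_right (h ▸ k)
      linarith [z.2.1]

end Fill

end Pool.Agent.Lib.MP_98d06d_al
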