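import Pool.Agent.Lib.MP_98d06d_al.Aut

/-!
The automorphism group of a countable dense chain is divisible.
-/

set_option autoImplicit false

namespace Pool.Agent.Lib.MP_98d06d_al

open Set

universe u

variable {X : Type u} [LinearOrder X]

namespace Aut

theorem iso_one (x : X) : (1 : Aut X).iso x = x := rfl

theorem zpow_iso (g : Aut X) (a b : ℤ) (x : X) :
    (g ^ a).iso ((g ^ b).iso x) = (g ^ (a + b)).iso x := by
  rw [zpow_add, iso_mul]

theorem zpow_cancel (g : Aut X) (a : ℤ) (x : X) : (g ^ (-a)).iso ((g ^ a).iso x) = x := by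
  rw [zpow_iso, neg_add_cancel, zpow_zero, iso_one]

/-- the convex hull of the orbit -/
def Orb (g : Aut X) (p : X) : Set X :=
  {y | ∃ a b : ℤ, (g ^ a).iso p ≤ y ∧ y ≤ (g ^ b).iso p}

theorem Orb.refl (g : Aut X) (p : X) : p ∈ Orb g p := ⟨0, 0, le_rfl, le_rfl⟩

theorem Orb.symm {g : Aut X} {p y : X} (h : y ∈ Orb g p) : p ∈ Orb g y := by
  obtain ⟨a, b, h1, h2⟩ := h
  refine ⟨-b, -a, ?_, ?_⟩
  · exact ((g ^ (-b)).iso.monotone h2).trans_eq (zpow_cancel g b p)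
  · exact (zpow_cancel g a p).ge.trans ((g ^ (-a)).iso.monotone h1)

theorem Orb.trans {g : Aut X} {p y z : X} (h : y ∈ Orb g p) (k : z ∈ Orb g y) : z ∈ Orb g p := by
  obtain ⟨a, b, h1, h2⟩ := h
  obtain ⟨c, d, k1, k2⟩ := k
  refine ⟨c + a, d + b, ?_, ?_⟩
  · rw [← zpow_iso]
    exact ((g ^ c).iso.monotone h1).trans k1
  · rw [← zpow_iso]
    exact k2.trans ((g ^ d).iso.monotone h2)

theorem Orb.zpow (g : Aut X) (p : X) (a : ℤ) : (g ^ a).iso p ∈ Orb g p := ⟨a, a, le_rfl, le_rfl⟩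

theorem Orb.inv (g : Aut X) (p : X) : Orb g⁻¹ p = Orb g p := by
  ext y
  constructor
  · rintro ⟨a, b, h1, h2⟩
    exact ⟨-a, -b, by simpa using h1, by simpa using h2⟩
  · rintro ⟨a, b, h1, h2⟩
    exact ⟨-a, -b, by simpa using h1, by simpa using h2⟩

variable [Countable X] [DenselyOrdered X]

theorem exists_theta {p q : X} (h : p < q) : ∃ θ : X → ℚ, StrictMonoOn θ (Ico p q) ∧
    MapsTo θ (Ico p q) (Ico 0 1) ∧ SurjOn θ (Ico p q) (Ico 0 1) := by
  classical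
  have : Nonempty (Ioo p q) := (nonempty_Ioo.2 h).to_subtype
  have : Nonempty (Ioo (0 : ℚ) 1) := (nonempty_Ioo.2 one_pos).to_subtype
  obtain ⟨e⟩ := Order.iso_of_countable_dense (Ioo p q) (Ioo (0 : ℚ) 1)
  have hp : p ∉ Ioo p q := fun k => lt_irrefl _ k.1
  refine ⟨fun y => if k : y ∈ Ioo p q then e ⟨y, k⟩ else 0, fun y hy z hz hyz => ?_,
    fun y _ => ?_, fun t ht => ?_⟩
  · have hz' : z ∈ Ioo p q := ⟨hy.1.trans_lt hyz, hz.2⟩
    simp only [dif_pos hz']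
    split_ifs with k
    · exact e.strictMono (show (⟨y, k⟩ : Ioo p q) < ⟨z, hz'⟩ from hyz)
    · exact (e _).2.1
  · simp only
    split_ifs with k
    · exact ⟨(e _).2.1.le, (e _).2.2⟩
    · exact ⟨le_rfl, one_pos⟩
  · rcases ht.1.eq_or_lt with rfl | k
    · exact ⟨p, ⟨le_rfl, h⟩, dif_neg hp⟩
    · obtain ⟨y, hy⟩ := e.surjective ⟨t, k, ht.2⟩
      exact ⟨y, ⟨y.2.1.le, y.2.2⟩, by simp only [dif_pos y.2, Subtype.coe_eta, hy]⟩

theorem exists_chart {g : Aut X} {p : X} (h : p < g.iso p) : ∃ Φ : X → ℚ,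
    StrictMonoOn Φ (Orb g p) ∧ SurjOn Φ (Orb g p) univ ∧
      ∀ y ∈ Orb g p, Φ (g.iso y) = Φ y + 1 := by
  obtain ⟨θ, h1, h2, h3⟩ := exists_theta h
  have hm : StrictMono fun k : ℤ => (g ^ k).iso p := strictMono_int_of_lt_succ fun k => by
    have := (g ^ k).iso.strictMono h
    rwa [← iso_mul, ← zpow_add_one] at this
  have hκ : ∀ y, ∃ k : ℤ, y ∈ Orb g p → (g ^ k).iso p ≤ y ∧ y < (g ^ (k + 1)).iso p := by
    intro y
    by_cases hy : y ∈ Orb g p
    · obtain ⟨a, b, k1, k2⟩ := hy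
      obtain ⟨k, hk, hk'⟩ := Int.exists_greatest_of_bdd (P := fun k => (g ^ k).iso p ≤ y)
        ⟨b, fun z hz => hm.le_iff_le.1 (hz.trans k2)⟩ ⟨a, k1⟩
      exact ⟨k, fun _ => ⟨hk, not_le.1 fun hz => by have := hk' _ hz; omega⟩⟩
    · exact ⟨0, fun k => absurd k hy⟩
  choose κ hκ using hκ
  have hle : ∀ {k l : ℤ} {y}, (g ^ k).iso p ≤ y → y < (g ^ (l + 1)).iso p → k ≤ l :=
    fun k1 k2 => Int.lt_add_one_iff.1 (hm.lt_iff_lt.1 (k1.trans_lt k2))
  have huq : ∀ {k : ℤ} {y}, (g ^ k).iso p ≤ y → y < (g ^ (k + 1)).iso p → κ y = k := by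
    intro k y k1 k2
    have := hκ y ⟨k, k + 1, k1, k2.le⟩
    exact le_antisymm (hle this.1 k2) (hle k1 this.2)
  have hmem : ∀ y ∈ Orb g p, (g ^ (-κ y)).iso y ∈ Ico p (g.iso p) := fun y hy =>
    ⟨(zpow_cancel g _ p).ge.trans ((g ^ (-κ y)).iso.monotone (hκ y hy).1),
      ((g ^ (-κ y)).iso.strictMono (hκ y hy).2).trans_eq
        (by rw [zpow_iso, neg_add_cancel_left, zpow_one])⟩
  refine ⟨fun y => κ y + θ ((g ^ (-κ y)).iso y), fun y hy z hz hyz => ?_, fun t _ => ?_,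
    fun y hy => ?_⟩
  · have k1 := h2 (hmem y hy)
    have k2 := h2 (hmem z hz)
    rcases (hle (hκ y hy).1 (hyz.trans (hκ z hz).2)).eq_or_lt with k | k
    · have := h1 (hmem y hy) (hmem z hz) (by rw [k]; exact (g ^ (-κ z)).iso.strictMono hyz)
      simp only [k] at this ⊢
      linarith
    · have : (κ y : ℚ) + 1 ≤ κ z := by exact_mod_cast k
      simp only
      linarith [k1.2, k2.1]
  · obtain ⟨y, hy, k⟩ := h3 (a := Int.fract t) ⟨Int.fract_nonneg t, Int.fract_lt_one t⟩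
    have k1 : (g ^ ⌊t⌋).iso p ≤ (g ^ ⌊t⌋).iso y := (g ^ ⌊t⌋).iso.monotone hy.1
    have k2 : (g ^ ⌊t⌋).iso y < (g ^ (⌊t⌋ + 1)).iso p := by
      rw [zpow_add_one, iso_mul]
      exact (g ^ ⌊t⌋).iso.strictMono hy.2
    refine ⟨_, ⟨_, _, k1, k2.le⟩, ?_⟩
    simp only [huq k1 k2, zpow_cancel, k, Int.floor_add_fract]
  · have e : ∀ z, g.iso z = (g ^ (1 : ℤ)).iso z := fun z => by rw [zpow_one]
    have k : κ (g.iso y) = κ y + 1 := huq
      (by rw [add_comm, ← zpow_iso, ← e]; exact g.iso.monotone (hκ y hy).1)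
      (by rw [add_comm, ← zpow_iso, ← e]; exact g.iso.strictMono (hκ y hy).2)
    simp only [k]
    rw [e, zpow_iso, show -(κ y + 1) + 1 = -κ y by ring]
    push_cast
    ring

theorem root_on (g : Aut X) (p : X) {n : ℕ} (hn : 0 < n) : ∃ f : X → X,
    MapsTo f (Orb g p) (Orb g p) ∧ StrictMonoOn f (Orb g p) ∧ SurjOn f (Orb g p) (Orb g p) ∧
      ∀ y ∈ Orb g p, f^[n] y = g.iso y := by
  have hg : ∀ y ∈ Orb g p, g.iso y ∈ Orb g p := fun y hy =>
    Orb.trans hy (by simpa using Orb.zpow g y 1)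
  have key : ∀ (ε : ℚ) (Φ : X → ℚ), StrictMonoOn Φ (Orb g p) → SurjOn Φ (Orb g p) univ →
      (∀ y ∈ Orb g p, Φ (g.iso y) = Φ y + ε) → ∃ f : X → X,
      MapsTo f (Orb g p) (Orb g p) ∧ StrictMonoOn f (Orb g p) ∧ SurjOn f (Orb g p) (Orb g p) ∧
        ∀ y ∈ Orb g p, f^[n] y = g.iso y := by
    intro ε Φ h1 h2 h3
    choose Ψ k1 k2 using fun t => h2 (mem_univ t)
    have hi : ∀ (m : ℕ) y, y ∈ Orb g p → (fun y => Ψ (Φ y + ε / n))^[m] y ∈ Orb g p ∧
        Φ ((fun y => Ψ (Φ y + ε / n))^[m] y) = Φ y + m * (ε / n) := by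
      intro m y hy
      induction m with
      | zero => simpa using hy
      | succ m ih =>
        rw [Function.iterate_succ_apply']
        exact ⟨k1 _, by rw [k2, ih.2]; push_cast; ring⟩
    refine ⟨fun y => Ψ (Φ y + ε / n), fun y _ => k1 _, fun y hy z hz hyz => ?_,
      fun y hy => ⟨Ψ (Φ y - ε / n), k1 _, by
        refine h1.injOn (k1 _) hy ?_
        rw [k2, k2, sub_add_cancel]⟩, fun y hy => h1.injOn (hi n y hy).1 (hg y hy) ?_⟩
    · rw [← h1.lt_iff_lt (k1 _) (k1 _), k2, k2]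
      linarith [h1 hy hz hyz]
    · rw [(hi n y hy).2, h3 y hy]
      field_simp
  rcases lt_trichotomy p (g.iso p) with h | h | h
  · obtain ⟨Φ, h1, h2, h3⟩ := exists_chart h
    exact key 1 Φ h1 h2 h3
  · have hz : ∀ a : ℤ, (g ^ a).iso p = p := fun a =>
      (MulAction.stabilizer (X ≃o X) p).zpow_mem (x := g) h.symm a
    refine ⟨id, mapsTo_id _, strictMonoOn_id, surjOn_id _, ?_⟩
    rintro y ⟨a, b, h1, h2⟩
    rw [hz] at h1 h2
    rw [le_antisymm h2 h1, Function.iterate_id, ← h, id]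
  · have e : ∀ y, g⁻¹.iso (g.iso y) = y := fun y => by rw [← iso_mul, inv_mul_cancel, iso_one]
    obtain ⟨Φ, h1, h2, h3⟩ := exists_chart (g := g⁻¹) (p := p) (by
      simpa [e] using g⁻¹.iso.strictMono h)
    rw [Orb.inv] at h1 h2 h3
    refine key (-1) Φ h1 h2 fun y hy => ?_
    have := h3 _ (hg y hy)
    rw [e] at this
    linarith

theorem exists_root (g : Aut X) {n : ℕ} (hn : 0 < n) : ∃ r : Aut X, r ^ n = g := by
  let s : Setoid X := ⟨fun x y => y ∈ Orb g x, Orb.refl g, Orb.symm, Orb.trans⟩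
  let b : X → X := fun x => (Quotient.mk s x).out
  have hb : ∀ x, x ∈ Orb g (b x) := fun x => Quotient.mk_out (s := s) x
  have hb' : ∀ x y, y ∈ Orb g (b x) → b y = b x := fun x y h =>
    congrArg Quotient.out (Quotient.sound (s := s) (Orb.trans (Orb.symm h) (hb x)))
  choose f h1 h2 h3 h4 using fun p => root_on g p hn
  have hm : StrictMono fun x => f (b x) x := by
    intro x y hxy
    by_cases h : y ∈ Orb g (b x)
    · simp only [hb' x y h]
      exact h2 _ (hb x) h hxy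
    · by_contra k
      obtain ⟨a, c, -, k2⟩ := h1 _ (hb x)
      obtain ⟨a', -, k1, -⟩ := Orb.symm (Orb.trans (Orb.symm (h1 _ (hb y))) (hb y))
      obtain ⟨a'', -, k3, -⟩ := hb x
      refine h ⟨a'', -a' + c, k3.trans hxy.le, ?_⟩
      have := (g ^ (-a')).iso.monotone (k1.trans ((not_lt.1 k).trans k2))
      rwa [zpow_cancel, zpow_iso] at this
  have hs : Function.Surjective fun x => f (b x) x := fun y => by
    obtain ⟨x, hx, k⟩ := h3 _ (hb y)
    exact ⟨x, by simp only [hb' y x hx, k]⟩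
  refine ⟨hm.orderIsoOfSurjective _ hs, ext' fun x => ?_⟩
  have : ∀ m : ℕ, ((show Aut X from hm.orderIsoOfSurjective _ hs) ^ m).iso x = (f (b x))^[m] x := by
    intro m
    induction m with
    | zero => rfl
    | succ m ih =>
      rw [pow_succ', iso_mul, ih, Function.iterate_succ_apply']
      change f (b _) _ = _
      rw [hb' x _ ((h1 _).iterate m (hb x))]
  rw [this, h4 _ _ (hb x)]

end Aut

end Pool.Agent.Lib.MP_98d06d_al
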