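import Pool.Agent.Lib.MP_98d06d_al.Quot
import Pool.Agent.Lib.MP_98d06d_al.DvRoot
import Pool.Agent.Lib.MP_98d06d_al.DvBig
import Pool.Agent.Lib.MP_98d06d_al.DvFill

/-!
Every lattice-ordered group has an embedding in a divisible lattice-ordered group that
preserves all infima.
-/

set_option autoImplicit false

namespace Pool.Agent.Lib.MP_98d06d_al

universe u

variable {L : Type u} [Group L] [Lattice L] [MulLeftMono L] [MulRightMono L]

/-- maximal filters that miss the negative cone -/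
structure Ult (L : Type u) [Group L] [Lattice L] where
  /-- the filter -/
  U : Set L
  ne : U.Nonempty
  inf_mem : ∀ f ∈ U, ∀ g ∈ U, f ⊓ g ∈ U
  not_mem : ∀ a, a ∉ U ↔ ∃ f ∈ U, f ⊓ a ≤ 1

omit [MulLeftMono L] [MulRightMono L] in
theorem exists_ult {p : ℕ → L} (hp : Antitone p) (h1 : ∀ n, ¬ p n ≤ 1) :
    ∃ T : Ult L, ∀ n, p n ∈ T.U := by
  let S : Set (Set L) := {U | (∀ f ∈ U, ∀ g ∈ U, f ⊓ g ∈ U) ∧ ∀ f ∈ U, ¬ f ≤ 1}
  obtain ⟨U, k, hU⟩ := zorn_subset_nonempty S (fun c hc hch _ => ⟨⋃₀ c, ⟨by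
      rintro f ⟨s, hs, hf⟩ g ⟨t, ht, hg⟩
      rcases hch.total hs ht with e | e
      · exact ⟨t, ht, (hc ht).1 f (e hf) g hg⟩
      · exact ⟨s, hs, (hc hs).1 f hf g (e hg)⟩,
    fun f ⟨s, hs, hf⟩ => (hc hs).2 f hf⟩, fun s hs => Set.subset_sUnion_of_mem hs⟩)
    (Set.range p) ⟨by
      rintro _ ⟨a, rfl⟩ _ ⟨b, rfl⟩
      rcases le_total a b with e | e
      · exact ⟨b, (inf_eq_right.2 (hp e)).symm⟩
      · exact ⟨a, (inf_eq_left.2 (hp e)).symm⟩, by rintro _ ⟨a, rfl⟩; exact h1 a⟩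
  refine ⟨⟨U, ⟨p 0, k ⟨0, rfl⟩⟩, hU.prop.1, fun a => ⟨fun ha => ?_, ?_⟩⟩, fun n => k ⟨n, rfl⟩⟩
  · by_contra e
    refine ha (hU.le_of_ge (y := {g | ∃ f ∈ U, f ⊓ a ≤ g}) ⟨?_, ?_⟩
      (fun f hf => ⟨f, hf, inf_le_left⟩) ⟨p 0, k ⟨0, rfl⟩, inf_le_right⟩)
    · rintro g ⟨f, hf, e1⟩ g' ⟨f', hf', e2⟩
      exact ⟨f ⊓ f', hU.prop.1 f hf f' hf', le_inf
        ((inf_le_inf_right a inf_le_left).trans e1) ((inf_le_inf_right a inf_le_right).trans e2)⟩
    · rintro g ⟨f, hf, e1⟩ e2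
      exact e ⟨f, hf, e1.trans e2⟩
  · rintro ⟨f, hf, e⟩ ha
    exact hU.prop.2 _ (hU.prop.1 f hf a ha) e

theorem mul_le_of_inf_le {a b c : L} (h : a ⊓ b ≤ 1) (ha : a ≤ c) (hb : b ≤ c) : a * b ≤ c := by
  have e : a * (a ⊓ b)⁻¹ * b = b ⊔ a := by simp [inv_inf, mul_sup, sup_mul]
  refine le_trans ?_ (e.trans_le (sup_le hb ha))
  exact mul_le_mul_left (le_mul_of_one_le_right' (one_le_inv'.2 h)) b

theorem inf_sup_one_le {a b : L} (h : a ⊓ b ≤ 1) : a ⊓ (b ⊔ 1) ≤ 1 := by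
  have k := mul_le_of_inf_le (c := a ⊔ 1 ⊔ b) h (le_sup_left.trans le_sup_left) le_sup_right
  have e : a * (a ⊓ (b ⊔ 1))⁻¹ * (b ⊔ 1) = b ⊔ 1 ⊔ a := by
    rw [inv_inf, mul_sup a⁻¹, sup_mul, mul_inv_cancel, one_mul, inv_mul_cancel_right]
  have k2 : a * (b ⊔ 1) ≤ b ⊔ 1 ⊔ a := by
    rw [mul_sup, mul_one]
    exact sup_le (k.trans (sup_le (sup_le le_sup_right (le_sup_right.trans le_sup_left))
      (le_sup_left.trans le_sup_left))) le_sup_right
  rw [← e, mul_le_mul_iff_right, le_mul_iff_one_le_right'] at k2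
  exact one_le_inv'.1 k2

namespace Ult

variable (T : Ult L)

omit [MulLeftMono L] [MulRightMono L] in
theorem up {a b : L} (h : a ≤ b) (ha : a ∈ T.U) : b ∈ T.U := by
  by_contra k
  obtain ⟨f, hf, e⟩ := (T.not_mem b).1 k
  exact (T.not_mem a).2 ⟨f, hf, (inf_le_inf_left f h).trans e⟩ ha

omit [MulLeftMono L] [MulRightMono L] in
theorem neg {a : L} (h : a ≤ 1) : a ∉ T.U :=
  (T.not_mem a).2 (T.ne.imp fun _ hf => ⟨hf, inf_le_right.trans h⟩)

theorem mul {a b : L} (ha : a ∉ T.U) (hb : b ∉ T.U) : a * b ∉ T.U := by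
  obtain ⟨f, hf, e⟩ := (T.not_mem a).1 ha
  obtain ⟨g, hg, k⟩ := (T.not_mem b).1 hb
  refine (T.not_mem _).2 ⟨f ⊓ g, T.inf_mem f hf g hg, le_trans (le_inf ?_ ?_) (inf_sup_one_le k)⟩
  · exact inf_le_left.trans inf_le_right
  · refine le_trans ?_ (mul_le_of_le_one_left' (a := b ⊔ 1) e)
    rw [inf_mul]
    exact inf_le_inf (inf_le_left.trans (le_mul_of_one_le_right' le_sup_right))
      (mul_le_mul_right le_sup_left a)

theorem total (a : L) : a ∉ T.U ∨ a⁻¹ ∉ T.U := by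
  by_contra h
  simp only [not_or, not_not] at h
  refine T.neg ?_ (T.inf_mem _ h.1 _ h.2)
  simpa [mabs, inv_sup, inf_comm] using inv_le_one'.2 (one_le_mabs a)

/-- a subgroup with the preorder given by the filter -/
def Pt (_T : Ult L) (Γ : Subgroup L) : Type u := Γ

variable (Γ : Subgroup L)

/-- the underlying element -/
def val (a : T.Pt Γ) : L := Subtype.val a

instance : Preorder (T.Pt Γ) where
  le a b := (T.val Γ b)⁻¹ * T.val Γ a ∉ T.U
  le_refl a := T.neg (inv_mul_cancel _).le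
  le_trans a b c h k := by simpa [mul_assoc] using T.mul k h

instance : Std.Total (α := T.Pt Γ) (· ≤ ·) :=
  ⟨fun a b => (T.total ((T.val Γ b)⁻¹ * T.val Γ a)).imp id fun h => by
    rwa [mul_inv_rev, inv_inv] at h⟩

/-- the chain of cosets -/
def Om : Type u := Antisymmetrization (T.Pt Γ) (· ≤ ·)

open Classical in
noncomputable instance : LinearOrder (T.Om Γ) :=
  inferInstanceAs (LinearOrder (Antisymmetrization (T.Pt Γ) (· ≤ ·)))

/-- the coset of an element -/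
def cs (a : Γ) : T.Om Γ := toAntisymmetrization (α := T.Pt Γ) (· ≤ ·) a

theorem cs_le (a b : Γ) : T.cs Γ a ≤ T.cs Γ b ↔ (b : L)⁻¹ * a ∉ T.U :=
  toAntisymmetrization_le_toAntisymmetrization_iff (α := T.Pt Γ)

theorem cs_lt (a b : Γ) : T.cs Γ a < T.cs Γ b ↔ (a : L)⁻¹ * b ∈ T.U := by
  rw [← not_le, cs_le, not_not]

theorem cs_surj (z : T.Om Γ) : ∃ a, T.cs Γ a = z := Quotient.exists_rep z

instance [Countable Γ] : Countable (T.Om Γ) := Function.Surjective.countable (T.cs_surj Γ)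

/-- left multiplication -/
noncomputable def lm (g : Γ) (z : T.Om Γ) : T.Om Γ := T.cs Γ (g * (T.cs_surj Γ z).choose)

theorem cs_mul (g a b : Γ) : T.cs Γ (g * a) ≤ T.cs Γ (g * b) ↔ T.cs Γ a ≤ T.cs Γ b := by
  simp [cs_le, mul_assoc]

theorem lm_cs (g a : Γ) : T.lm Γ g (T.cs Γ a) = T.cs Γ (g * a) :=
  le_antisymm ((T.cs_mul Γ _ _ _).2 (T.cs_surj Γ _).choose_spec.le)
    ((T.cs_mul Γ _ _ _).2 (T.cs_surj Γ _).choose_spec.ge)

theorem lm_mul (g h : Γ) (z : T.Om Γ) : T.lm Γ (g * h) z = T.lm Γ g (T.lm Γ h z) := by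
  obtain ⟨a, rfl⟩ := T.cs_surj Γ z
  rw [lm_cs, lm_cs, lm_cs, mul_assoc]

theorem lm_one (z : T.Om Γ) : T.lm Γ 1 z = z := by
  obtain ⟨a, rfl⟩ := T.cs_surj Γ z
  rw [lm_cs, one_mul]

/-- the action on the cosets -/
noncomputable def act : Γ →* Aut (T.Om Γ) where
  toFun g := show T.Om Γ ≃o T.Om Γ from
    { toFun := T.lm Γ g
      invFun := T.lm Γ g⁻¹
      left_inv := fun z => by rw [← lm_mul, inv_mul_cancel, lm_one]
      right_inv := fun z => by rw [← lm_mul, mul_inv_cancel, lm_one]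
      map_rel_iff' := by
        intro z w
        obtain ⟨a, rfl⟩ := T.cs_surj Γ z
        obtain ⟨b, rfl⟩ := T.cs_surj Γ w
        change T.lm Γ g _ ≤ T.lm Γ g _ ↔ _
        rw [lm_cs, lm_cs, cs_mul] }
  map_one' := Aut.ext' (T.lm_one Γ)
  map_mul' g h := Aut.ext' (T.lm_mul Γ g h)

theorem act_cs (g a : Γ) : (T.act Γ g).iso (T.cs Γ a) = T.cs Γ (g * a) := T.lm_cs Γ g a

end Ult

/-- the letters -/
abbrev Lt (L : Type u) [Group L] [Lattice L] : Type u := {p : L // ¬ p ≤ 1} × L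

open Classical in
/-- the decreasing sequence of conditions -/
noncomputable def cnd (x : ℕ → Lt L) : ℕ → L
  | 0 => (x 0).1.1
  | n + 1 => if cnd x n ⊓ (x (n + 1)).1.1 ≤ 1 then cnd x n else cnd x n ⊓ (x (n + 1)).1.1

omit [MulLeftMono L] [MulRightMono L] in
theorem cnd_anti (x : ℕ → Lt L) : Antitone (cnd x) := antitone_nat_of_succ_le fun n => by
  rw [cnd]
  split_ifs
  exacts [le_rfl, inf_le_left]

omit [MulLeftMono L] [MulRightMono L] in
theorem cnd_pos (x : ℕ → Lt L) (n : ℕ) : ¬ cnd x n ≤ 1 := by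
  induction n with
  | zero => exact (x 0).1.2
  | succ n ih =>
    rw [cnd]
    split_ifs with h
    exacts [ih, h]

omit [MulLeftMono L] [MulRightMono L] in
theorem cnd_congr {x y : ℕ → Lt L} {n : ℕ} (h : ∀ i < n + 1, y i = x i) : cnd y n = cnd x n := by
  induction n with
  | zero => rw [cnd, cnd, h 0 one_pos]
  | succ n ih => rw [cnd, cnd, ih fun i hi => h i (by omega), h _ (Nat.lt_succ_self _)]

/-- the filter of a sequence -/
noncomputable def ult (x : ℕ → Lt L) : Ult L := (exists_ult (cnd_anti x) (cnd_pos x)).choose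

omit [MulLeftMono L] [MulRightMono L] in
theorem cnd_mem (x : ℕ → Lt L) (n : ℕ) : cnd x n ∈ (ult x).U :=
  (exists_ult (cnd_anti x) (cnd_pos x)).choose_spec n

/-- the value of a word -/
def ev (x : ℕ → Lt L) : FreeGroup ℕ →* L := FreeGroup.lift fun n => (x n).2

omit [MulLeftMono L] [MulRightMono L] in
theorem ev_local (w : FreeGroup ℕ) :
    ∃ k, ∀ x y : ℕ → Lt L, (∀ i < k, y i = x i) → ev y w = ev x w := by
  induction w using FreeGroup.induction_on with
  | C1 => exact ⟨0, fun _ _ _ => by simp⟩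
  | of n => exact ⟨n + 1, fun x y h => by simp [ev, h n (Nat.lt_succ_self n)]⟩
  | inv_of n ih => exact ih.imp fun k h x y e => by rw [map_inv, map_inv, h x y e]
  | mul a b ha hb =>
    obtain ⟨k, ha⟩ := ha
    obtain ⟨l, hb⟩ := hb
    exact ⟨max k l, fun x y h => by
      rw [map_mul, map_mul, ha x y fun i hi => h i (by omega), hb x y fun i hi => h i (by omega)]⟩

omit [MulLeftMono L] [MulRightMono L] in
theorem mem_ev (x : ℕ → Lt L) (n : ℕ) : (x n).2 ∈ (ev x).range :=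
  ⟨FreeGroup.of n, FreeGroup.lift_apply_of⟩

instance (x : ℕ → Lt L) : Countable (ev x).range := (ev x).rangeRestrict_surjective.countable

/-- the product of the automorphism groups -/
abbrev Prd (L : Type u) [Group L] [Lattice L] [MulLeftMono L] [MulRightMono L] : Type u :=
  ∀ x : ℕ → Lt L, Aut (Fill ((ult x).Om (ev x).range))

instance : MulLeftMono (Prd L) := ⟨fun h _ _ k o => mul_le_mul_right (k o) (h o)⟩

instance : MulRightMono (Prd L) := ⟨fun h _ _ k o => mul_le_mul_left (k o) (h o)⟩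

variable (L) in
/-- the elements that are negative on a comeagre set -/
def negC : Cone (Prd L) where
  J := {h | Big {x | h x ≤ 1}}
  one_mem := big_of_forall fun x => le_refl ((1 : Prd L) x)
  lower _ _ h k := Big.mono k fun x e => (h x).trans e
  mul_mem f g h k := (Big.inter h k).mono fun x e => show f x * g x ≤ 1 from mul_le_one' e.1 e.2
  sup_mem f g h k := (Big.inter h k).mono fun x e => show f x ⊔ g x ≤ 1 from sup_le e.1 e.2

theorem mem_negC {h : Prd L} : h ∈ (negC L).J ↔ Big {x | h x ≤ 1} := Iff.rfl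

theorem mem_negN (g : Prd L) : g ∈ (negC L).N := fun h hh =>
  ⟨mem_negC.2 <| (mem_negC.1 hh).mono fun x e => show g x * h x * (g x)⁻¹ ≤ 1 from
    mul_inv_le_one_iff_le.2 (mul_le_of_le_one_right' e),
  mem_negC.2 <| (mem_negC.1 hh).mono fun x e => show (g x)⁻¹ * h x * g x ≤ 1 by
    rw [mul_assoc]
    exact inv_mul_le_one_iff.2 (mul_le_of_le_one_left' e)⟩

/-- the class of an element of the product -/
noncomputable def cl (g : Prd L) : (negC L).Q := (negC L).pr ⟨g, mem_negN g⟩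

theorem cl_le (g h : Prd L) : cl g ≤ cl h ↔ Big {x | g x ≤ h x} := by
  rw [cl, cl, Cone.mk_le_mk, mem_negC]
  exact iff_of_eq (congrArg Big (Set.ext fun x => mul_inv_le_one_iff_le (a := g x) (b := h x)))

theorem cl_mul (g h : Prd L) : cl (g * h) = cl g * cl h := by
  rw [cl, cl, cl, ← map_mul]
  rfl

theorem cl_root (q : (negC L).Q) {n : ℕ} (hn : 0 < n) : ∃ r, r ^ n = q := by
  obtain ⟨⟨g, hg⟩, rfl⟩ := (negC L).mk_surj q
  choose r hr using fun x => (g x).exists_root hn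
  exact ⟨cl r, by rw [cl, ← map_pow]; exact congrArg _ (Subtype.ext (funext hr))⟩

open Classical in
/-- the generic action -/
noncomputable def rho (a : L) : Prd L := fun x =>
  if h : a ∈ (ev x).range then Fill.ext ((ult x).act _ ⟨a, h⟩) else 1

theorem rho_eq {a : L} {x : ℕ → Lt L} (h : a ∈ (ev x).range) :
    rho a x = Fill.ext ((ult x).act _ ⟨a, h⟩) := dif_pos h

omit [MulLeftMono L] [MulRightMono L] in
theorem big_mem (a : L) : Big {x : ℕ → Lt L | a ∈ (ev x).range} := by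
  rcases isEmpty_or_nonempty (Lt L) with _ | _
  · exact big_of_forall fun x => isEmptyElim (x 0)
  refine big_local fun x k => ⟨Function.update x k ((x 0).1, a), k + 1, k.le_succ,
    fun i hi => Function.update_of_ne hi.ne _ _, big_of_forall fun z hz => ?_⟩
  have := mem_ev z k
  rwa [hz k k.lt_succ_self, Function.update_self] at this

/-- the embedding -/
noncomputable def dv : L →* (negC L).Q := MonoidHom.mk' (fun a => cl (rho a)) fun a b => by
  have : Big {x | rho (a * b) x = (rho a * rho b) x} :=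
    ((big_mem a).inter (big_mem b)).mono fun x h => by
      change rho (a * b) x = rho a x * rho b x
      rw [rho_eq h.1, rho_eq h.2, rho_eq (mul_mem h.1 h.2), ← map_mul, ← map_mul]
      rfl
  rw [← cl_mul]
  exact le_antisymm ((cl_le _ _).2 (this.mono fun _ h => h.le))
    ((cl_le _ _).2 (this.mono fun _ h => h.ge))

theorem dv_mono {a b : L} (h : a ≤ b) : dv a ≤ dv b :=
  (cl_le _ _).2 <| ((big_mem a).inter (big_mem b)).mono fun x k z => by
    rw [rho_eq k.1, rho_eq k.2]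
    refine Fill.mv_le ?_
    obtain ⟨c, hc⟩ := (ult x).cs_surj _ z.1.1
    rw [← hc, Ult.act_cs, Ult.act_cs, Ult.cs_le]
    exact (ult x).neg (inv_mul_le_one_iff.2 (mul_le_mul_left h _))

theorem le_one_of_dv {a : L} (h : dv a ≤ cl 1) : a ≤ 1 := by
  by_contra k
  obtain ⟨x, h1, h2⟩ := ((cl_le _ _).1 h).exists_mem (fun _ => (⟨a, k⟩, a)) 1
  have e1 : a ∈ (ev x).range := by simpa [h2 0 one_pos] using mem_ev x 0
  have e2 : a ∈ (ult x).U := by simpa [cnd, h2 0 one_pos] using cnd_mem x 0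
  have e3 := h1 (Fill.pt ((ult x).cs _ 1))
  rw [rho_eq e1] at e3
  refine e3.not_gt (Fill.lt_iff.2 (Or.inl ?_))
  change (ult x).cs _ 1 < ((ult x).act _ ⟨a, e1⟩).iso ((ult x).cs _ 1)
  rw [Ult.act_cs, Ult.cs_lt]
  simpa using e2

theorem le_one_of_glb {A : Set L} (hA : IsGLB A 1) {h : Prd L} (hh : ∀ a ∈ A, cl h ≤ dv a) :
    cl h ≤ cl 1 := by
  rcases isEmpty_or_nonempty (Lt L) with _ | _
  · exact (cl_le _ _).2 (big_of_forall fun x => isEmptyElim (x 0))
  have key : ∀ w : FreeGroup ℕ × FreeGroup ℕ, Big {x | (ev x w.1)⁻¹ * ev x w.2 ∈ (ult x).U →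
      ∃ a ∈ (ev x).range, (a * ev x w.1)⁻¹ * ev x w.2 ∈ (ult x).U ∧ h x ≤ rho a x} := by
    rintro ⟨v, w⟩
    obtain ⟨k1, hv⟩ := ev_local (L := L) v
    obtain ⟨k2, hw⟩ := ev_local (L := L) w
    refine big_local fun x k => ?_
    obtain ⟨n, n1, n2, n3⟩ : ∃ n, k ≤ n ∧ k1 ≤ n ∧ k2 ≤ n := ⟨k + k1 + k2, by omega⟩
    by_cases e : cnd x n ⊓ ((ev x v)⁻¹ * ev x w) ≤ 1
    · refine ⟨x, n + 1, by omega, fun _ _ => rfl, big_of_forall fun z hz k => absurd k ?_⟩
      rw [hv x z fun i hi => hz i (by omega), hw x z fun i hi => hz i (by omega)]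
      exact ((ult z).not_mem _).2 ⟨_, cnd_mem z n, by rwa [cnd_congr hz]⟩
    obtain ⟨a, ha, e'⟩ : ∃ a ∈ A,
        ¬ cnd x n ⊓ ((ev x v)⁻¹ * ev x w) ⊓ ((a * ev x v)⁻¹ * ev x w) ≤ 1 := by
      by_contra hc
      simp only [not_exists, not_and, not_not] at hc
      set p := cnd x n ⊓ ((ev x v)⁻¹ * ev x w)
      have : ev x v * p * (ev x v)⁻¹ ≤ 1 := hA.2 fun a ha => by
        have := mul_le_of_inf_le (c := (ev x v)⁻¹ * ev x w) (hc a ha) inf_le_right
          (mul_le_mul_left (inv_le_inv_iff.2 (le_mul_of_one_le_left' (hA.1 ha))) _)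
        rw [← mul_assoc, mul_le_mul_iff_right, mul_inv_le_iff_le_mul, ← mul_assoc] at this
        rw [mul_inv_le_iff_le_mul]
        simpa [mul_assoc] using mul_le_mul_right this (ev x v)
      rw [mul_inv_le_one_iff_le, mul_le_iff_le_one_right'] at this
      exact e this
    refine ⟨Function.update x (n + 1) (⟨_, e'⟩, a), n + 2, by omega,
      fun i hi => Function.update_of_ne (by omega) _ _,
      ((cl_le _ _).1 (hh a ha)).mono fun z k hz _ => ?_⟩
    have hz' : ∀ i < n + 1, z i = x i := fun i hi =>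
      (hz i (by omega)).trans (Function.update_of_ne hi.ne _ _)
    have hz'' := (hz (n + 1) (by omega)).trans (Function.update_self _ _ _)
    refine ⟨a, by simpa [hz''] using mem_ev z (n + 1), ?_, k⟩
    rw [hv x z fun i hi => hz' i (by omega), hw x z fun i hi => hz' i (by omega)]
    refine (ult z).up ?_ (cnd_mem z (n + 1))
    rw [cnd, cnd_congr hz', hz'', inf_eq_right.2 (inf_le_left.trans inf_le_left), if_neg e']
    exact inf_le_right
  refine (cl_le _ _).2 ((big_iInter key).mono fun x hx z => not_lt.1 fun hz => ?_)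
  obtain ⟨b, h1, h2⟩ := Fill.exists_gap (z := z) hz
  obtain ⟨⟨_, w, rfl⟩, rfl⟩ := (ult x).cs_surj _ b
  obtain ⟨⟨_, v, rfl⟩, hv⟩ := (ult x).cs_surj _ z.1.1
  rw [← hv, Ult.cs_lt] at h1
  obtain ⟨a, k1, k2, k3⟩ := hx (v, w) h1
  rw [rho_eq k1] at k3
  refine (k3 z).not_gt (h2 _ ?_)
  rw [← hv, Ult.act_cs, Ult.cs_lt]
  exact k2

theorem dv_le (a b : L) : a ≤ b ↔ dv a ≤ dv b :=
  ⟨dv_mono, fun h => mul_inv_le_one_iff_le.1 (le_one_of_dv (by
    have := (negC L).mul_le_right _ _ (dv b)⁻¹ h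
    rwa [mul_inv_cancel, ← map_inv, ← map_mul, ← map_one (negC L).pr] at this))⟩

theorem dv_isGLB (S : Set L) (s : L) (hS : IsGLB S s) : IsGLB (dv '' S) (dv s) := by
  refine ⟨by rintro _ ⟨t, ht, rfl⟩; exact dv_mono (hS.1 ht), fun q hq => ?_⟩
  have hA : IsGLB {a | a * s ∈ S} 1 := ⟨fun a ha => by simpa using hS.1 ha, fun y hy => by
    have : y * s ≤ s := hS.2 fun t ht =>
      le_mul_inv_iff_mul_le.1 (hy (a := t * s⁻¹) (by simpa using ht))
    simpa using this⟩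
  obtain ⟨⟨h, hh⟩, e⟩ := (negC L).mk_surj (q * (dv s)⁻¹)
  have := le_one_of_glb hA (h := h) fun a ha => by
    have := (negC L).mul_le_right _ _ (dv s)⁻¹ (hq ⟨_, ha, rfl⟩)
    rwa [map_mul, mul_inv_cancel_right, ← e] at this
  have k := (negC L).mul_le_right _ _ (dv s) this
  rwa [cl, e, inv_mul_cancel_right, show cl (1 : Prd L) = 1 from map_one (negC L).pr,
    one_mul] at k

end Pool.Agent.Lib.MP_98d06d_al
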