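import Mathlib

/-!
Collapsing a lattice-ordered group along a lower set closed under products and joins.
-/

set_option autoImplicit false

namespace Pool.Agent.Lib.MP_98d06d_al

universe u

/-- A lower set of an l-group that contains `1` and is closed under products and joins. -/
structure Cone (K : Type u) [Group K] [Lattice K] where
  J : Set K
  one_mem : 1 ∈ J
  lower : ∀ x y, x ≤ y → y ∈ J → x ∈ J
  mul_mem : ∀ x y, x ∈ J → y ∈ J → x * y ∈ J
  sup_mem : ∀ x y, x ∈ J → y ∈ J → x ⊔ y ∈ J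

namespace Cone

variable {K : Type u} [Group K] [Lattice K] (C : Cone K)

/-- the normaliser of the cone -/
def N : Subgroup K where
  carrier := {g | ∀ h ∈ C.J, g * h * g⁻¹ ∈ C.J ∧ g⁻¹ * h * g ∈ C.J}
  one_mem' h hh := by simpa using hh
  inv_mem' {g} hg h hh := by simpa using (hg h hh).symm
  mul_mem' {a b} ha hb h hh := by
    constructor
    · have := (ha _ (hb h hh).1).1
      simpa [mul_assoc] using this
    · have := (hb _ (ha h hh).2).2
      simpa [mul_assoc] using this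

theorem mem_N (g : K) : g ∈ C.N ↔ ∀ h ∈ C.J, g * h * g⁻¹ ∈ C.J ∧ g⁻¹ * h * g ∈ C.J := Iff.rfl

variable [MulLeftMono K] [MulRightMono K]

theorem sup_mem_N {x y : K} (hx : x ∈ C.N) (hy : y ∈ C.N) : x ⊔ y ∈ C.N := by
  intro h hh
  have h1 : (x ⊔ y)⁻¹ ≤ x⁻¹ := inv_le_inv_iff.2 le_sup_left
  have h2 : (x ⊔ y)⁻¹ ≤ y⁻¹ := inv_le_inv_iff.2 le_sup_right
  constructor
  · refine C.lower _ _ ?_ (C.sup_mem _ _ (hx h hh).1 (hy h hh).1)
    rw [sup_mul, sup_mul]
    exact sup_le_sup (mul_le_mul_right h1 _) (mul_le_mul_right h2 _)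
  · refine C.lower _ _ ?_ (C.sup_mem _ _ (hx h hh).2 (hy h hh).2)
    rw [mul_sup]
    exact sup_le_sup (mul_le_mul_left (mul_le_mul_left h1 _) _)
      (mul_le_mul_left (mul_le_mul_left h2 _) _)

theorem inf_mem_N {x y : K} (hx : x ∈ C.N) (hy : y ∈ C.N) : x ⊓ y ∈ C.N := by
  have := C.N.inv_mem (C.sup_mem_N (C.N.inv_mem hx) (C.N.inv_mem hy))
  simpa [inv_sup] using this

omit [MulLeftMono K] [MulRightMono K] in
/-- the kernel of the collapse -/
def I : Subgroup C.N where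
  carrier := {x | (x : K) ∈ C.J ∧ (x : K)⁻¹ ∈ C.J}
  one_mem' := by simpa using C.one_mem
  inv_mem' {g} hg := by simpa using hg.symm
  mul_mem' {a b} ha hb := by
    refine ⟨C.mul_mem _ _ ha.1 hb.1, ?_⟩
    have := C.mul_mem _ _ hb.2 ha.2
    simpa using this

omit [MulLeftMono K] [MulRightMono K] in
instance : C.I.Normal where
  conj_mem n hn g := by
    refine ⟨(g.2 _ hn.1).1, ?_⟩
    have := (g.2 _ hn.2).1
    simpa [mul_assoc] using this

omit [MulLeftMono K] [MulRightMono K] in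
/-- the collapsed group -/
def Q : Type u := C.N ⧸ C.I

omit [MulLeftMono K] [MulRightMono K] in
instance : Group C.Q := inferInstanceAs (Group (C.N ⧸ C.I))

omit [MulLeftMono K] [MulRightMono K] in
/-- the projection -/
def pr : C.N →* C.Q := QuotientGroup.mk' C.I

omit [MulLeftMono K] [MulRightMono K] in
theorem mk_surj (q : C.Q) : ∃ x, C.pr x = q := QuotientGroup.mk'_surjective C.I q

omit [MulLeftMono K] [MulRightMono K] in
theorem mk_eq_one (x : C.N) : C.pr x = 1 ↔ (x : K) ∈ C.J ∧ (x : K)⁻¹ ∈ C.J :=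
  QuotientGroup.eq_one_iff x

omit [MulLeftMono K] [MulRightMono K] in
/-- negative cone of the collapsed group -/
def Neg (q : C.Q) : Prop := ∃ x : C.N, C.pr x = q ∧ (x : K) ∈ C.J

omit [MulLeftMono K] [MulRightMono K] in
theorem neg_mk (x : C.N) : C.Neg (C.pr x) ↔ (x : K) ∈ C.J := by
  constructor
  · rintro ⟨y, hy, hJ⟩
    have h1 : C.pr (y⁻¹ * x) = 1 := by rw [map_mul, map_inv, hy, inv_mul_cancel]
    have := C.mul_mem _ _ hJ ((C.mk_eq_one _).1 h1).1
    simpa using this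
  · exact fun h => ⟨x, rfl, h⟩

omit [MulLeftMono K] [MulRightMono K] in
theorem neg_mk_div (x y : C.N) :
    C.Neg (C.pr x * (C.pr y)⁻¹) ↔ (x : K) * (y : K)⁻¹ ∈ C.J := by
  rw [← map_inv, ← map_mul, neg_mk]; rfl

omit [MulLeftMono K] [MulRightMono K] in
/-- a representative -/
noncomputable def out (q : C.Q) : C.N := (C.mk_surj q).choose

omit [MulLeftMono K] [MulRightMono K] in
theorem mk_out (q : C.Q) : C.pr (C.out q) = q := (C.mk_surj q).choose_spec

omit [MulLeftMono K] [MulRightMono K] in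
instance : PartialOrder C.Q where
  le a b := C.Neg (a * b⁻¹)
  le_refl a := ⟨1, by simp, C.one_mem⟩
  le_trans a b c := by
    obtain ⟨x, rfl⟩ := C.mk_surj a
    obtain ⟨y, rfl⟩ := C.mk_surj b
    obtain ⟨z, rfl⟩ := C.mk_surj c
    rw [neg_mk_div, neg_mk_div, neg_mk_div]
    intro h k
    simpa [mul_assoc] using C.mul_mem _ _ h k
  le_antisymm a b := by
    obtain ⟨x, rfl⟩ := C.mk_surj a
    obtain ⟨y, rfl⟩ := C.mk_surj b
    rw [neg_mk_div, neg_mk_div]
    intro h k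
    rw [← mul_inv_eq_one, ← map_inv, ← map_mul, mk_eq_one]
    exact ⟨h, by simpa using k⟩

omit [MulLeftMono K] [MulRightMono K] in
theorem mk_le_mk (x y : C.N) : C.pr x ≤ C.pr y ↔ (x : K) * (y : K)⁻¹ ∈ C.J :=
  C.neg_mk_div x y

omit [MulLeftMono K] in
theorem mk_mono {x y : C.N} (h : (x : K) ≤ y) : C.pr x ≤ C.pr y :=
  (C.mk_le_mk x y).2 (C.lower _ _ (mul_inv_le_one_iff_le.2 h) C.one_mem)

noncomputable instance : Lattice C.Q where
  sup a b := C.pr ⟨C.out a ⊔ C.out b, C.sup_mem_N (C.out a).2 (C.out b).2⟩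
  inf a b := C.pr ⟨C.out a ⊓ C.out b, C.inf_mem_N (C.out a).2 (C.out b).2⟩
  le_sup_left a b := by
    conv_lhs => rw [← C.mk_out a]
    exact C.mk_mono le_sup_left
  le_sup_right a b := by
    conv_lhs => rw [← C.mk_out b]
    exact C.mk_mono le_sup_right
  sup_le a b c h k := by
    rw [← C.mk_out a, ← C.mk_out c, mk_le_mk] at h
    rw [← C.mk_out b, ← C.mk_out c, mk_le_mk] at k
    rw [← C.mk_out c, mk_le_mk, sup_mul]
    exact C.sup_mem _ _ h k
  inf_le_left a b := by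
    conv_rhs => rw [← C.mk_out a]
    exact C.mk_mono inf_le_left
  inf_le_right a b := by
    conv_rhs => rw [← C.mk_out b]
    exact C.mk_mono inf_le_right
  le_inf a b c h k := by
    rw [← C.mk_out a, ← C.mk_out b, mk_le_mk] at h
    rw [← C.mk_out a, ← C.mk_out c, mk_le_mk] at k
    rw [← C.mk_out a, mk_le_mk, inv_inf, mul_sup]
    exact C.sup_mem _ _ h k

omit [MulLeftMono K] [MulRightMono K] in
theorem mul_le_left (a b c : C.Q) (h : a ≤ b) : c * a ≤ c * b := by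
  obtain ⟨x, rfl⟩ := C.mk_surj a
  obtain ⟨y, rfl⟩ := C.mk_surj b
  obtain ⟨z, rfl⟩ := C.mk_surj c
  rw [← map_mul, ← map_mul, mk_le_mk]
  have := (z.2 _ ((C.mk_le_mk x y).1 h)).1
  simpa [mul_assoc] using this

omit [MulLeftMono K] [MulRightMono K] in
theorem mul_le_right (a b c : C.Q) (h : a ≤ b) : a * c ≤ b * c := by
  obtain ⟨x, rfl⟩ := C.mk_surj a
  obtain ⟨y, rfl⟩ := C.mk_surj b
  obtain ⟨z, rfl⟩ := C.mk_surj c
  rw [← map_mul, ← map_mul, mk_le_mk]
  have := (C.mk_le_mk x y).1 h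
  simpa [mul_assoc] using this

end Cone

section Main

variable {G : Type u} [Group G] [PartialOrder G] [MulLeftMono G] [MulRightMono G]

theorem isGLB_mul {A : Set G} {B : G → Set G} (hA : IsGLB A 1) (hB : ∀ a ∈ A, IsGLB (B a) 1) :
    IsGLB {x | ∃ a ∈ A, ∃ b ∈ B a, x = b * a} 1 := by
  constructor
  · rintro x ⟨a, ha, b, hb, rfl⟩
    exact one_le_mul ((hB a ha).1 hb) (hA.1 ha)
  · intro x hx
    refine hA.2 fun a ha => ?_
    have : x * a⁻¹ ≤ 1 := (hB a ha).2 fun b hb =>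
      mul_inv_le_iff_le_mul.2 (hx ⟨a, ha, b, hb, rfl⟩)
    exact mul_inv_le_one_iff_le.1 this

theorem isGLB_conj {A : Set G} (hA : IsGLB A 1) (g : G) :
    IsGLB {x | ∃ a ∈ A, x = g * a * g⁻¹} 1 := by
  constructor
  · rintro x ⟨a, ha, rfl⟩
    have := mul_le_mul_left (mul_le_mul_right (hA.1 ha) g) g⁻¹
    simpa using this
  · intro x hx
    have : g⁻¹ * x * g ≤ 1 := hA.2 fun a ha => by
      have := mul_le_mul_left (mul_le_mul_right (hx ⟨a, ha, rfl⟩) g⁻¹) g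
      simpa [mul_assoc] using this
    have := mul_le_mul_left (mul_le_mul_right this g) g⁻¹
    simpa [mul_assoc] using this

variable {K : Type u} [Group K] [Lattice K] [MulLeftMono K] [MulRightMono K]

/-- elements lying below the image of a set whose infimum is `1` -/
def cone (ψ : G →* K) (hψ : ∀ a b, a ≤ b ↔ ψ a ≤ ψ b) : Cone K where
  J := {h | ∃ A : Set G, IsGLB A 1 ∧ ∀ a ∈ A, h ≤ ψ a}
  one_mem := ⟨{1}, isGLB_singleton, by simp⟩
  lower := by
    rintro x y hxy ⟨A, hA, h⟩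
    exact ⟨A, hA, fun a ha => hxy.trans (h a ha)⟩
  mul_mem := by
    rintro x y ⟨B, hB, h⟩ ⟨A, hA, k⟩
    refine ⟨_, isGLB_mul hA (B := fun _ => B) fun _ _ => hB, ?_⟩
    rintro _ ⟨a, ha, b, hb, rfl⟩
    rw [map_mul]
    exact mul_le_mul' (h b hb) (k a ha)
  sup_mem := by
    rintro x y ⟨B, hB, h⟩ ⟨A, hA, k⟩
    refine ⟨_, isGLB_mul hA (B := fun _ => B) fun _ _ => hB, ?_⟩
    rintro _ ⟨a, ha, b, hb, rfl⟩
    refine sup_le ((h b hb).trans ((hψ _ _).1 ?_)) ((k a ha).trans ((hψ _ _).1 ?_))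
    · exact le_mul_of_one_le_right' (hA.1 ha)
    · exact le_mul_of_one_le_left' (hB.1 hb)

theorem mem_cone (ψ : G →* K) (hψ : ∀ a b, a ≤ b ↔ ψ a ≤ ψ b) (h : K) :
    h ∈ (cone ψ hψ).J ↔ ∃ A : Set G, IsGLB A 1 ∧ ∀ a ∈ A, h ≤ ψ a := Iff.rfl

theorem conj_mem_cone (ψ : G →* K) (hψ : ∀ a b, a ≤ b ↔ ψ a ≤ ψ b) (g : G) (h : K)
    (hh : h ∈ (cone ψ hψ).J) : ψ g * h * (ψ g)⁻¹ ∈ (cone ψ hψ).J := by
  obtain ⟨A, hA, k⟩ := hh
  refine ⟨_, isGLB_conj hA g, ?_⟩
  rintro _ ⟨a, ha, rfl⟩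
  rw [map_mul, map_mul, map_inv]
  exact mul_le_mul_left (mul_le_mul_right (k a ha) _) _

theorem map_mem_N (ψ : G →* K) (hψ : ∀ a b, a ≤ b ↔ ψ a ≤ ψ b) (g : G) :
    ψ g ∈ (cone ψ hψ).N := fun h hh =>
  ⟨conj_mem_cone ψ hψ g h hh, by simpa using conj_mem_cone ψ hψ g⁻¹ h hh⟩

/-- the improved embedding -/
def emb (ψ : G →* K) (hψ : ∀ a b, a ≤ b ↔ ψ a ≤ ψ b) : G →* (cone ψ hψ).Q :=
  (cone ψ hψ).pr.comp (ψ.codRestrict _ (map_mem_N ψ hψ))

theorem emb_apply (ψ : G →* K) (hψ : ∀ a b, a ≤ b ↔ ψ a ≤ ψ b) (g : G) :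
    emb ψ hψ g = (cone ψ hψ).pr ⟨ψ g, map_mem_N ψ hψ g⟩ := rfl

theorem emb_le (ψ : G →* K) (hψ : ∀ a b, a ≤ b ↔ ψ a ≤ ψ b) (a b : G) :
    a ≤ b ↔ emb ψ hψ a ≤ emb ψ hψ b := by
  rw [emb_apply, emb_apply]
  constructor
  · exact fun h => Cone.mk_mono _ ((hψ _ _).1 h)
  · rw [Cone.mk_le_mk]
    rintro ⟨A, hA, k⟩
    refine mul_inv_le_one_iff_le.1 (hA.2 fun c hc => (hψ _ _).2 ?_)
    simpa using k c hc

theorem emb_isGLB (ψ : G →* K) (hψ : ∀ a b, a ≤ b ↔ ψ a ≤ ψ b) (S : Set G) (s : G)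
    (hS : IsGLB S s) : IsGLB (emb ψ hψ '' S) (emb ψ hψ s) := by
  constructor
  · rintro _ ⟨t, ht, rfl⟩
    exact (emb_le ψ hψ _ _).1 (hS.1 ht)
  · intro q hq
    obtain ⟨x, rfl⟩ := (cone ψ hψ).mk_surj q
    rw [emb_apply, Cone.mk_le_mk]
    have hA : IsGLB {a | a * s ∈ S} 1 := by
      constructor
      · intro a ha
        have := hS.1 ha
        simpa using this
      · intro y hy
        have : y * s ≤ s := hS.2 fun t ht => by
          have := hy (a := t * s⁻¹) (by simpa using ht)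
          exact le_mul_inv_iff_mul_le.1 this
        simpa using this
    have hB : ∀ a : G, ∃ B : Set G, a * s ∈ S →
        IsGLB B 1 ∧ ∀ b ∈ B, (x : K) * (ψ (a * s))⁻¹ ≤ ψ b := by
      intro a
      by_cases ha : a * s ∈ S
      · have := hq ⟨a * s, ha, rfl⟩
        rw [emb_apply, Cone.mk_le_mk] at this
        obtain ⟨B, h1, h2⟩ := this
        exact ⟨B, fun _ => ⟨h1, h2⟩⟩
      · exact ⟨∅, fun h => absurd h ha⟩
    choose B hB using hB
    refine ⟨_, isGLB_mul hA (B := B) fun a ha => (hB a ha).1, ?_⟩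
    rintro _ ⟨a, ha, b, hb, rfl⟩
    have := mul_le_mul_left ((hB a ha).2 b hb) (ψ a)
    simpa [mul_assoc] using this

end Main

end Pool.Agent.Lib.MP_98d06d_al
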